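import Mathlib
import Pool.Agent.H79.TD.Stm6

set_option autoImplicit false

open MvPolynomial Module Pool.Agent.H77.TF Pool.Agent.H79.TD

namespace Pool.Agent.H91.TD

variable {K : Type} [Field K] [Fintype K]

theorem q_cast : ((Fintype.card K : ℕ) : MvPolynomial (Fin 3) K) = 0 := by
  have h : ((Fintype.card K : ℕ) : MvPolynomial (Fin 3) K) = C ((Fintype.card K : ℕ) : K) :=
    (map_natCast C _).symm
  rw [h, FiniteField.cast_card_eq_zero, C_0]

theorem sum_pow_q (f : Fin 3 → MvPolynomial (Fin 3) K) :
    (∑ i, f i) ^ Fintype.card K = ∑ i, f i ^ Fintype.card K := by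
  obtain ⟨p, hp⟩ := CharP.exists K
  haveI := hp
  obtain ⟨n, hpr, hq⟩ := FiniteField.card K p
  haveI : Fact p.Prime := ⟨hpr⟩
  haveI : CharP (MvPolynomial (Fin 3) K) p := inferInstance
  rw [hq, sum_pow_char_pow]

theorem TH_mul (f g : MvPolynomial (Fin 3) K) : TH (f * g) = f * TH g + g * TH f := by
  unfold TH
  rw [Finset.mul_sum, Finset.mul_sum, ← Finset.sum_add_distrib]
  refine Finset.sum_congr rfl fun j _ => ?_
  rw [Derivation.leibniz, smul_eq_mul, smul_eq_mul]
  ring

theorem TH_add (f g : MvPolynomial (Fin 3) K) : TH (f + g) = TH f + TH g := by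
  unfold TH
  rw [← Finset.sum_add_distrib]
  exact Finset.sum_congr rfl fun j _ => by rw [map_add, mul_add]

theorem TH_smul (c : K) (f : MvPolynomial (Fin 3) K) : TH (c • f) = c • TH f := by
  unfold TH
  rw [Finset.smul_sum]
  exact Finset.sum_congr rfl fun j _ => by rw [Derivation.map_smul, mul_smul_comm]

theorem TH_X (i : Fin 3) : TH (X i : MvPolynomial (Fin 3) K) = X i ^ Fintype.card K := by
  unfold TH
  rw [Finset.sum_eq_single i]
  · simp
  · intro b _ hb
    rw [pderiv_X_of_ne hb.symm, mul_zero]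
  · intro h
    exact absurd (Finset.mem_univ _) h

theorem TH_powq (f : MvPolynomial (Fin 3) K) : TH (f ^ Fintype.card K) = 0 := by
  unfold TH
  refine Finset.sum_eq_zero fun j _ => ?_
  rw [Derivation.leibniz_pow, nsmul_eq_mul, q_cast, zero_mul, mul_zero]

noncomputable def TL : MvPolynomial (Fin 3) K →ₗ[K] MvPolynomial (Fin 3) K where
  toFun := TH
  map_add' := TH_add
  map_smul' := TH_smul

theorem TL_apply (f : MvPolynomial (Fin 3) K) : TL f = TH f := rfl

theorem TL_succ (k : ℕ) (f : MvPolynomial (Fin 3) K) : (TL ^ (k + 1)) f = TH ((TL ^ k) f) := by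
  rw [pow_succ', Module.End.mul_apply, TL_apply]

theorem TL_succ' (k : ℕ) (f : MvPolynomial (Fin 3) K) : (TL ^ (k + 1)) f = (TL ^ k) (TH f) := by
  rw [pow_succ, Module.End.mul_apply, TL_apply]

theorem TH_nat (m : ℕ) (f : MvPolynomial (Fin 3) K) :
    TH ((m : MvPolynomial (Fin 3) K) * f) = (m : MvPolynomial (Fin 3) K) * TH f := by
  rw [← nsmul_eq_mul, ← nsmul_eq_mul, ← TL_apply, map_nsmul, TL_apply]

theorem TL_nat (k m : ℕ) (f : MvPolynomial (Fin 3) K) :
    (TL ^ k) ((m : MvPolynomial (Fin 3) K) * f) = (m : MvPolynomial (Fin 3) K) * (TL ^ k) f := by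
  rw [← nsmul_eq_mul, ← nsmul_eq_mul, map_nsmul]

theorem TL_Xq (i : Fin 3) (k : ℕ) (g : MvPolynomial (Fin 3) K) :
    (TL ^ k) (X i ^ Fintype.card K * g) = X i ^ Fintype.card K * (TL ^ k) g := by
  induction k with
  | zero => rfl
  | succ k ih => rw [TL_succ, ih, TH_mul, TH_powq, mul_zero, add_zero, TL_succ]

theorem TL_X (i : Fin 3) (k : ℕ) (g : MvPolynomial (Fin 3) K) :
    (TL ^ (k + 1)) (X i * g) = X i * (TL ^ (k + 1)) g +
      ((k + 1 : ℕ) : MvPolynomial (Fin 3) K) * (X i ^ Fintype.card K * (TL ^ k) g) := by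
  induction k with
  | zero =>
    rw [TL_succ, TL_succ]
    simp only [pow_zero, Module.End.one_apply]
    rw [TH_mul, TH_X]
    push_cast
    ring
  | succ k ih =>
    rw [TL_succ, ih, TH_add, TH_mul, TH_X, TH_nat, TH_mul, TH_powq, ← TL_succ, ← TL_succ]
    push_cast
    ring

theorem nat_pow_q (m : ℕ) : ((m : ℕ) : MvPolynomial (Fin 3) K) ^ Fintype.card K = m := by
  have h : ((m : ℕ) : MvPolynomial (Fin 3) K) = C ((m : ℕ) : K) := by simp
  rw [h, ← C_pow, FiniteField.pow_card]

theorem nat_ne (m : ℕ) (h : (m : K) ≠ 0) : ((m : ℕ) : MvPolynomial (Fin 3) K) ≠ 0 := by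
  have h' : ((m : ℕ) : MvPolynomial (Fin 3) K) = C ((m : ℕ) : K) := by simp
  rw [h']
  exact fun hc => h (C_eq_zero.mp hc)

theorem euler (m : ℕ) (f : MvPolynomial (Fin 3) K) (hf : f.IsHomogeneous m) :
    ∑ i, X i * pderiv i f = (m : MvPolynomial (Fin 3) K) * f := by
  rw [hf.sum_X_mul_pderiv, nsmul_eq_mul]

theorem top (m : ℕ) : (∀ k : ℕ, 0 < k → k ≤ m → (k : K) ≠ 0) → ∀ f : MvPolynomial (Fin 3) K,
    f.IsHomogeneous m → (TL ^ m) f = ((Nat.factorial m : ℕ) : MvPolynomial (Fin 3) K) * f ^ Fintype.card K := by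
  induction m with
  | zero =>
    intro _ f hf
    have h1 : f = C (coeff 0 f) := by
      apply totalDegree_eq_zero_iff_eq_C.mp
      have := hf.totalDegree_le
      omega
    simp only [pow_zero, Module.End.one_apply, Nat.factorial_zero, Nat.cast_one, one_mul]
    rw [h1, ← C_pow, FiniteField.pow_card]
  | succ m ih =>
    intro hk f hf
    have hg : ∀ i, (pderiv i f).IsHomogeneous m := fun i => hf.pderiv
    have ih' := fun i => ih (fun k h1 h2 => hk k h1 (by omega)) (pderiv i f) (hg i)
    have hE := euler (m + 1) f hf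
    have h1 : ((m + 1 : ℕ) : MvPolynomial (Fin 3) K) * (TL ^ (m + 1)) f =
        ((m + 1 : ℕ) : MvPolynomial (Fin 3) K) *
          (((Nat.factorial (m + 1) : ℕ) : MvPolynomial (Fin 3) K) * f ^ Fintype.card K) := by
      rw [← TL_nat, ← hE, map_sum]
      have h2 : ∀ i : Fin 3, (TL ^ (m + 1)) (X i * pderiv i f) =
          ((m + 1 : ℕ) : MvPolynomial (Fin 3) K) * ((Nat.factorial m : ℕ) : MvPolynomial (Fin 3) K) *
            (X i * pderiv i f) ^ Fintype.card K := by
        intro i
        rw [TL_X, TL_succ, ih' i, TH_nat, TH_powq, mul_zero, mul_zero, zero_add, mul_pow]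
        ring
      rw [Finset.sum_congr rfl fun i _ => h2 i, ← Finset.mul_sum, ← sum_pow_q, hE, mul_pow, nat_pow_q,
        Nat.factorial_succ]
      push_cast
      ring
    exact mul_left_cancel₀ (nat_ne (m + 1) (hk (m + 1) (by omega) le_rfl)) h1

theorem t_NCL (hMDT : S_MDT) (hPRI : S_PRI) : S_NCL := by
  intro K _ _ d G hirr hG hk hT
  have hprime : Prime G := hirr.prime
  have hG0 : G ≠ 0 := hirr.ne_zero
  have hnu : ¬ IsUnit G := hirr.not_isUnit
  cases d with
  | zero =>
    exfalso
    have h1 : G = C (coeff 0 G) := by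
      apply totalDegree_eq_zero_iff_eq_C.mp
      have := hG.totalDegree_le
      omega
    apply hnu
    rw [h1]
    have h2 : coeff 0 G ≠ 0 := by
      intro h
      rw [h, C_0] at h1
      exact hG0 h1
    exact (isUnit_iff_ne_zero.mpr h2).map C
  | succ e =>
    have hg : ∀ i, (pderiv i G).IsHomogeneous e := fun i => hG.pderiv
    have htop := fun i => top e (fun k h1 h2 => hk k h1 (by omega)) (pderiv i G) (hg i)
    have hE := euler (e + 1) G hG
    have hdvd : ∀ k, G ∣ (TL ^ k) G := by
      intro k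
      induction k with
      | zero => exact dvd_rfl
      | succ k ih =>
        obtain ⟨h, hh⟩ := ih
        rw [TL_succ, hh, TH_mul]
        exact dvd_add (dvd_mul_right _ _) (hT.mul_left _)
    have hA : (TL ^ e) G = ((Nat.factorial e : ℕ) : MvPolynomial (Fin 3) K) *
        ∑ i, X i * pderiv i G ^ Fintype.card K := by
      cases e with
      | zero =>
        simp only [pow_zero, Module.End.one_apply, Nat.factorial_zero, Nat.cast_one, one_mul] at htop ⊢
        rw [Finset.sum_congr rfl fun i _ => by rw [← htop i], hE]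
        simp
      | succ k =>
        have h1 : ((k + 1 + 1 : ℕ) : MvPolynomial (Fin 3) K) * (TL ^ (k + 1)) G =
            ((Nat.factorial (k + 1) : ℕ) : MvPolynomial (Fin 3) K) *
              ∑ i, X i * pderiv i G ^ Fintype.card K +
            ((k + 1 : ℕ) : MvPolynomial (Fin 3) K) * (TL ^ (k + 1)) G := by
          rw [← TL_nat, ← hE, map_sum]
          have h2 : (TL ^ (k + 1)) G = ∑ i, X i ^ Fintype.card K * (TL ^ k) (pderiv i G) := by
            rw [TL_succ']
            unfold TH
            rw [map_sum]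
            exact Finset.sum_congr rfl fun i _ => TL_Xq i k _
          rw [h2, Finset.mul_sum, Finset.mul_sum, ← Finset.sum_add_distrib]
          refine Finset.sum_congr rfl fun i _ => ?_
          rw [TL_X, htop i]
          ring
        push_cast at h1 ⊢
        linear_combination h1
    have hfac : ∀ m : ℕ, m ≤ e → ((Nat.factorial m : ℕ) : K) ≠ 0 := by
      intro m
      induction m with
      | zero => intro _; simp
      | succ m ih =>
        intro hm
        rw [Nat.factorial_succ, Nat.cast_mul]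
        exact mul_ne_zero (hk (m + 1) (by omega) (by omega)) (ih (by omega))
    have hCu : ∀ c : K, c ≠ 0 → ¬ G ∣ C c := by
      intro c hc h
      exact hnu (isUnit_of_dvd_unit h ((isUnit_iff_ne_zero.mpr hc).map C))
    have A1 : G ∣ ∑ i, X i * pderiv i G ^ Fintype.card K := by
      have h := hdvd e
      rw [hA] at h
      rcases hprime.dvd_or_dvd h with h1 | h1
      · exfalso
        refine hCu _ (hfac e le_rfl) ?_
        simpa using h1
      · exact h1
    have A2 : G ∣ ∑ i, X i ^ Fintype.card K * pderiv i G ^ Fintype.card K := by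
      have : ∑ i, X i ^ Fintype.card K * pderiv i G ^ Fintype.card K =
          (∑ i, X i * pderiv i G) ^ Fintype.card K := by
        rw [sum_pow_q]
        exact Finset.sum_congr rfl fun i _ => (mul_pow _ _ _).symm
      rw [this, hE]
      exact dvd_pow (dvd_mul_left _ _) Fintype.card_ne_zero
    have A3 : G ∣ ∑ i, X i ^ (Fintype.card K ^ 2) * pderiv i G ^ Fintype.card K := by
      have : ∑ i, X i ^ (Fintype.card K ^ 2) * pderiv i G ^ Fintype.card K =
          (TH G) ^ Fintype.card K := by
        unfold TH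
        rw [sum_pow_q]
        refine Finset.sum_congr rfl fun i _ => ?_
        rw [mul_pow, ← pow_mul, sq]
      rw [this]
      exact dvd_pow hT Fintype.card_ne_zero
    obtain ⟨M, hM⟩ : ∃ M : Matrix (Fin 3) (Fin 3) (MvPolynomial (Fin 3) K),
      M = Matrix.of fun k i : Fin 3 => frob K 3 k i := ⟨_, rfl⟩
    obtain ⟨w, hw⟩ : ∃ w : Fin 3 → MvPolynomial (Fin 3) K, w = fun i => pderiv i G ^ Fintype.card K :=
      ⟨_, rfl⟩
    have hMw : ∀ k, G ∣ (M.mulVec w) k := by
      intro k
      have e1 : (M.mulVec w) k = ∑ i, X i ^ (Fintype.card K ^ (k : ℕ)) * pderiv i G ^ Fintype.card K := by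
        rw [hM, hw]
        rfl
      rw [e1]
      fin_cases k
      · simpa using A1
      · simpa using A2
      · simpa using A3
    have hdet : ∀ i, G ∣ M.det * w i := by
      intro i
      have e1 : M.adjugate.mulVec (M.mulVec w) = M.det • w := by
        rw [Matrix.mulVec_mulVec, Matrix.adjugate_mul, Matrix.smul_mulVec, Matrix.one_mulVec]
      have e2 : M.det * w i = (M.adjugate.mulVec (M.mulVec w)) i := by
        rw [e1]
        rfl
      rw [e2]
      have e3 : (M.adjugate.mulVec (M.mulVec w)) i = ∑ k, M.adjugate i k * (M.mulVec w) k := rfl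
      rw [e3]
      exact Finset.dvd_sum fun k _ => (hMw k).mul_left _
    have hGdet : G ∣ M.det := by
      by_contra hc
      have h1 : ∀ i, pderiv i G = 0 := by
        intro i
        have h2 : G ∣ w i := (hprime.dvd_or_dvd (hdet i)).resolve_left hc
        rw [hw] at h2
        have h3 : G ∣ pderiv i G := hprime.dvd_of_dvd_pow h2
        by_contra h4
        obtain ⟨h, hh⟩ := h3
        have h5 : h ≠ 0 := by
          rintro rfl
          exact h4 (by rw [hh, mul_zero])
        have h6 : (pderiv i G).totalDegree = G.totalDegree + h.totalDegree := by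
          conv_lhs => rw [hh]
          exact totalDegree_mul_of_isDomain hG0 h5
        have h7 := (hg i).totalDegree_le
        have h8 := hG.totalDegree hG0
        omega
      have h2 : ((e + 1 : ℕ) : MvPolynomial (Fin 3) K) * G = 0 := by
        rw [← hE]
        exact Finset.sum_eq_zero fun i _ => by rw [h1 i, mul_zero]
      rcases mul_eq_zero.mp h2 with h3 | h3
      · exact nat_ne (e + 1) (hk (e + 1) (by omega) le_rfl) h3
      · exact hG0 h3
    obtain ⟨c, hc, hc'⟩ := hMDT K 3
    rw [hM, hc'] at hGdet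
    rcases hprime.dvd_or_dvd hGdet with h1 | h1
    · exact absurd h1 (hCu c hc)
    · have hfin : Finite (Projectivization K (Fin 3 → K)) := inferInstance
      letI : Fintype (Projectivization K (Fin 3 → K)) := Fintype.ofFinite _
      rw [finprod_eq_prod_of_fintype] at h1
      obtain ⟨p, _, hp⟩ := (hprime.dvd_finsetProd_iff _).mp h1
      exact ⟨p.rep, p.rep_nonzero, hirr.dvd_symm ((hPRI K 3 p.rep p.rep_nonzero).1.irreducible) hp⟩

end Pool.Agent.H91.TD
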