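import Pool.Agent.H79.TD.Stm4
import Pool.Agent.H91.GR.Pat

set_option autoImplicit false

/-! Project EX (helper79), module RLP (helper91). -/

namespace Pool.Agent.H91.TD

open Pool.Agent.H77.TF Pool.Agent.H77.GR Pool.Agent.H79.TD Pool.Agent.H91.GR

/-- RLP -/
theorem t_RLP : S_RLP := by
  intro K _ ν A hA i j k
  rcases eq_or_ne i j with rfl | hij
  · rw [mem_span_self_iff hA]
    constructor
    · intro h
      exact Or.inl ⟨rfl, h⟩
    · rintro (⟨-, h⟩ | ⟨h, -⟩)
      · exact h
      · exact absurd rfl h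
  · rw [mem_span_iff_det (hA.1 j) (hA.2 i j hij)]
    constructor
    · intro h
      exact Or.inr ⟨hij, h⟩
    · rintro (⟨h, -⟩ | ⟨-, h⟩)
      · exact absurd h hij
      · exact h

end Pool.Agent.H91.TD
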