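import Pool.Agent.H79.TD.Stm3

set_option autoImplicit false

/-! Project EX (helper79), module SCL (helper91): common denominators. -/

namespace Pool.Agent.H91.TD

open Finset Pool.Agent.H77.GR Pool.Agent.H79.TD

/-- SCL -/
theorem t_SCL : S_SCL := by
  intro n A
  refine ⟨fun i j => (A i j).num * ∏ k ∈ univ.erase j, ((A i k).den : ℤ),
    fun i => ∏ k, ((A i k).den : ℚ), fun i => ?_, fun i => ?_⟩
  · exact prod_ne_zero_iff.2 fun k _ => Nat.cast_ne_zero.2 (A i k).den_nz
  · funext j
    have h1 : ((A i j).num : ℚ) = A i j * (A i j).den := (Rat.mul_den_eq_num _).symm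
    have h2 : ∏ k, ((A i k).den : ℚ) = ((A i j).den : ℚ) * ∏ k ∈ univ.erase j, ((A i k).den : ℚ) :=
      (mul_prod_erase univ _ (mem_univ j)).symm
    simp only [Pi.smul_apply, smul_eq_mul, mapA, Int.coe_castRingHom]
    push_cast
    rw [h1, h2]
    ring

end Pool.Agent.H91.TD
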