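import Mathlib
import Pool.Agent.H79.TD.Stm6

set_option autoImplicit false

open MvPolynomial Module Pool.Agent.H77.TF Pool.Agent.H79.TD

namespace Pool.Agent.H91.TD

theorem count {K : Type} [Field K] [Fintype K] (c : Fin 3 → K) (hc : c ≠ 0) :
    Nat.card {W : Submodule K (Fin 3 → K) // finrank K W = 2 ∧ c ∈ W} ≤ Fintype.card K + 1 := by
  obtain ⟨S, hS⟩ : ∃ S : Submodule K (Fin 3 → K), S = Submodule.span K {c} := ⟨_, rfl⟩
  have hS1 : finrank K S = 1 := by rw [hS]; exact finrank_span_singleton hc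
  have hV : finrank K ((Fin 3 → K) ⧸ S) = 2 := by
    have := Submodule.finrank_quotient_add_finrank S
    rw [hS1, finrank_fin_fun] at this
    omega
  have hle : ∀ W : Submodule K (Fin 3 → K), c ∈ W → S ≤ W := by
    intro W h
    rw [hS]
    exact (Submodule.span_singleton_le_iff_mem c W).mpr h
  have key : ∀ W : Submodule K (Fin 3 → K), finrank K W = 2 → c ∈ W → finrank K (W.map S.mkQ) = 1 := by
    intro W hW hcW
    have hSW : S ≤ W := hle W hcW
    have h := LinearMap.finrank_range_add_finrank_ker (S.mkQ.domRestrict W)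
    rw [LinearMap.range_domRestrict, hW] at h
    have hk : finrank K (LinearMap.ker (S.mkQ.domRestrict W)) = 1 := by
      have e1 : LinearMap.ker (S.mkQ.domRestrict W) = S.comap W.subtype := by
        ext x
        simp [LinearMap.mem_ker]
      rw [e1, (Submodule.comapSubtypeEquivOfLe hSW).finrank_eq, hS1]
    omega
  let F : {W : Submodule K (Fin 3 → K) // finrank K W = 2 ∧ c ∈ W} →
      {H : Submodule K ((Fin 3 → K) ⧸ S) // finrank K H = 1} :=
    fun W => ⟨W.1.map S.mkQ, key W.1 W.2.1 W.2.2⟩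
  have hF : Function.Injective F := by
    intro W W' h
    have h1 : W.1.map S.mkQ = W'.1.map S.mkQ := congrArg Subtype.val h
    apply Subtype.ext
    have h2 : ∀ U : Submodule K (Fin 3 → K), c ∈ U → (U.map S.mkQ).comap S.mkQ = U := by
      intro U hU
      rw [Submodule.comap_map_mkQ]
      exact sup_eq_right.mpr (hle U hU)
    rw [← h2 W.1 W.2.2, h1, h2 W'.1 W'.2.2]
  have hfin : Finite ((Fin 3 → K) ⧸ S) := inferInstance
  have h3 : Nat.card {H : Submodule K ((Fin 3 → K) ⧸ S) // finrank K H = 1} = Fintype.card K + 1 := by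
    rw [← Nat.card_congr (Projectivization.equivSubmodule K ((Fin 3 → K) ⧸ S)),
      Projectivization.card_of_finrank_two K _ hV, Nat.card_eq_fintype_card]
  have h4 : Finite {H : Submodule K ((Fin 3 → K) ⧸ S) // finrank K H = 1} := by
    apply Nat.finite_of_card_ne_zero
    rw [h3]
    omega
  rw [← h3]
  exact Nat.card_le_card_of_injective F hF

theorem mem_hyp' {K : Type} [Field K] (x w : Fin 3 → K) : w ∈ hyp x ↔ ∑ j, x j * w j = 0 := by
  unfold hyp
  rw [LinearMap.mem_ker]
  simp [LinearMap.sum_apply]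

theorem finrank_hyp' {K : Type} [Field K] (x : Fin 3 → K) (hx : x ≠ 0) : finrank K (hyp x) = 2 := by
  obtain ⟨k, hk⟩ : ∃ k, x k ≠ 0 := by
    by_contra h
    push Not at h
    exact hx (funext h)
  unfold hyp
  have h := LinearMap.finrank_range_add_finrank_ker
    (∑ j, x j • (LinearMap.proj j : (Fin 3 → K) →ₗ[K] K))
  have hr : LinearMap.range (∑ j, x j • (LinearMap.proj j : (Fin 3 → K) →ₗ[K] K)) = ⊤ := by
    rw [LinearMap.range_eq_top]
    intro t
    refine ⟨Pi.single k (t / x k), ?_⟩
    simp only [LinearMap.sum_apply, LinearMap.smul_apply, LinearMap.proj_apply, smul_eq_mul]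
    rw [Finset.sum_eq_single k]
    · rw [Pi.single_eq_same]
      field_simp
    · intro b _ hb
      rw [Pi.single_eq_of_ne hb, mul_zero]
    · intro h
      exact absurd (Finset.mem_univ _) h
  rw [hr, finrank_top, finrank_self, finrank_fin_fun] at h
  omega

theorem prop_of_hyp_eq {K : Type} [Field K] (x y : Fin 3 → K) (hy : y ≠ 0) (h : hyp x = hyp y) :
    ∃ t : K, x = t • y := by
  obtain ⟨k, hk⟩ : ∃ k, y k ≠ 0 := by
    by_contra h
    push Not at h
    exact hy (funext h)
  refine ⟨x k / y k, funext fun j => ?_⟩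
  have hm : (y k • Pi.single j (1 : K) - y j • Pi.single k (1 : K) : Fin 3 → K) ∈ hyp y := by
    rw [mem_hyp']
    simp [mul_sub, Finset.sum_sub_distrib, Pi.single_apply]
    ring
  rw [← h, mem_hyp'] at hm
  simp [mul_sub, Finset.sum_sub_distrib, Pi.single_apply] at hm
  rw [Pi.smul_apply, smul_eq_mul]
  field_simp
  linear_combination hm

theorem t_UPT : S_UPT := by
  intro K _ _ _ n A c R hc hR hR2
  have hfin : Finite {W : Submodule K (Fin 3 → K) // finrank K W = 2 ∧ c ∈ W} := inferInstance
  let G : {x // x ∈ R.filter fun x => ∑ j, c j * x j = 0} ⊕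
      {W : Submodule K (Fin 3 → K) // finrank K W = 2 ∧ c ∈ W ∧ ∃ i, A i ∈ W} →
      {W : Submodule K (Fin 3 → K) // finrank K W = 2 ∧ c ∈ W} := fun s =>
    match s with
    | Sum.inl x => ⟨hyp x.1, finrank_hyp' x.1 (hR x.1 (Finset.mem_filter.mp x.2).1).2, by
        rw [mem_hyp']
        have := (Finset.mem_filter.mp x.2).2
        simpa [mul_comm] using this⟩
    | Sum.inr W => ⟨W.1, W.2.1, W.2.2.1⟩
  have hG : Function.Injective G := by
    rintro (x | W) (y | V) h
    · have h1 : hyp x.1 = hyp y.1 := congrArg Subtype.val h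
      obtain ⟨t, ht⟩ := prop_of_hyp_eq x.1 y.1 (hR y.1 (Finset.mem_filter.mp y.2).1).2 h1
      have := hR2 x.1 (Finset.mem_filter.mp x.2).1 y.1 (Finset.mem_filter.mp y.2).1 t ht
      rw [Subtype.ext this]
    · exfalso
      have h1 : hyp x.1 = V.1 := congrArg Subtype.val h
      obtain ⟨i, hi⟩ := V.2.2.2
      rw [← h1, mem_hyp'] at hi
      refine (hR x.1 (Finset.mem_filter.mp x.2).1).1 i ?_
      simpa [mul_comm] using hi
    · exfalso
      have h1 : W.1 = hyp y.1 := congrArg Subtype.val h
      obtain ⟨i, hi⟩ := W.2.2.2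
      rw [h1, mem_hyp'] at hi
      refine (hR y.1 (Finset.mem_filter.mp y.2).1).1 i ?_
      simpa [mul_comm] using hi
    · have h1 : (G (Sum.inr W)).1 = (G (Sum.inr V)).1 := congrArg Subtype.val h
      have h2 : W.1 = V.1 := h1
      rw [Subtype.ext h2]
  have h1 := Nat.card_le_card_of_injective G hG
  rw [Nat.card_sum, Nat.card_eq_fintype_card, Fintype.card_coe] at h1
  exact h1.trans (count c hc)

end Pool.Agent.H91.TD
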